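import Pool.Agent.H256.SG.Main
import Pool.Agent.H256.SG.CL
import Pool.Agent.H256.SG.CU
import Pool.Agent.H256.SG.PL
import Pool.Agent.H256.SG.Alg
import Pool.Agent.H256.SG.Gen
import Pool.Agent.H256.SG.FA
import Pool.Agent.H256.SG.FB

/-!
# MP_8bd86c_an: the gap between compositions of odd cubics and general polynomials computed with
`m` products is linear in `m`
-/

namespace Pool.Agent.Results.MP_8bd86c_an.LinearGap

open Pool.Agent.H256.SG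

/-- For `0 < δ < 1` there is `K` with `(log₂ 60 / 8) m - K ≤ T(m,δ) ≤ m + K` for all `m`;
moreover `a^(2^T) ≤ ε^comp_{2T} ≤ b^(2^T)` and `a'^(2^m) ≤ ε*_m ≤ exp (-c 60^(m/8))`. -/
theorem result (δ : ℝ) (h0 : 0 < δ) (h1 : δ < 1) :
    (∃ K : ℝ, ∀ m : ℕ, {T : ℕ | 1 ≤ T ∧ epsComp δ T ≤ epsStar δ m}.Nonempty ∧
      Real.logb 2 60 / 8 * m - K ≤ TT m δ ∧ (TT m δ : ℝ) ≤ m + K) ∧
    (∃ a b : ℝ, 0 < a ∧ 0 < b ∧ b < 1 ∧ ∀ T : ℕ,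
      a ^ (2 ^ T) ≤ epsComp δ T ∧ epsComp δ T ≤ b ^ (2 ^ T)) ∧
    (∃ a c : ℝ, 0 < a ∧ 0 < c ∧ ∀ m : ℕ, a ^ (2 ^ m) ≤ epsStar δ m ∧
      epsStar δ m ≤ Real.exp (-(c * 60 ^ ((m : ℝ) / 8)))) :=
  main compLow compUp polyLow alg (gen alg compUp) (fourA alg fourB) δ h0 h1

end Pool.Agent.Results.MP_8bd86c_an.LinearGap
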